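import Pool.Agent.H.MP_075e78_co.D

/-! Almost every ordered matching with interval chromatic number two has ordered Ramsey number
`O(n^(3/2) log n)` against the triangle. -/

namespace Pool.Agent.Results.MP_c11385_co.ThreeHalves
open Filter Topology Pool.Agent.H.MP_075e78_co

theorem result : ∃ C : ℝ, Tendsto (fun m : ℕ =>
    ({M : Fin (2 * m) → Fin (2 * m) | IsMatching M ∧ IntChrom M 2 ∧
      RamseyLe M (C * (2 * m : ℝ) ^ (3 / 2 : ℝ) * Real.log (2 * m))}.ncard : ℝ) /
    ({M : Fin (2 * m) → Fin (2 * m) | IsMatching M ∧ IntChrom M 2}.ncard : ℝ)) atTop (𝓝 1) :=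
  typical 2 le_rfl

end Pool.Agent.Results.MP_c11385_co.ThreeHalves
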